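import Mathlib
import Pool.Agent.V1179.Romanov

/-!
# Positive definite extensions of `1 - |ξ|^α` beyond Romanov's number

Romanov's extension of `1 - |ξ|^α` from `[-1,1]` is the 4-periodic one that is odd about `ξ = 1`; its
Fourier coefficients are nonnegative exactly for `α ≤ α₀`, and at `α = α₀` only the coefficients at
the frequencies `± 3π/2` vanish. Adding a small multiple of the 4-periodic function that is
`1 + cos (3π(ξ - 2))` on `[1,3]` and `0` on `[-1,1]` makes these coefficients positive and keeps all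
others nonnegative, so that `1 - |ξ|^α` has a positive definite extension for some `α > α₀`.
-/

set_option autoImplicit false

namespace Pool.Agent.Results.MP_e4dd62_an.BeyondRomanov

open MeasureTheory Set Filter Topology intervalIntegral Pool.Agent.V1179.Romanov

/-- `τ` is positive definite on `[-1,1]`: it is the restriction to `[-1,1]` of the Fourier transform
of a finite nonnegative Borel measure on the line. -/
def IsPosDefOnUnit (τ : ℝ → ℝ) : Prop :=
  ∃ μ : Measure ℝ, IsFiniteMeasure μ ∧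
    ∀ ξ ∈ Icc (-1 : ℝ) 1, (τ ξ : ℂ) = ∫ x : ℝ, Complex.exp (Complex.I * ξ * x) ∂μ

/-- The set of the exponents `α > 0` for which `1 - |ξ|^α` is positive definite on `[-1,1]`. -/
def admissible : Set ℝ := {α | 0 < α ∧ IsPosDefOnUnit fun ξ => 1 - |ξ| ^ α}

/-- `β₀`, the supremum of the admissible exponents. -/
noncomputable def beta0 : ℝ := sSup admissible

/-- `ρ(α) = ∫_0^{3π/2} cos t / t^(2-α) dt`. -/
noncomputable def rho (α : ℝ) : ℝ := ∫ t in (0 : ℝ)..(3 * Real.pi / 2), Real.cos t / t ^ (2 - α)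

theorem rho_eq (α : ℝ) : rho α = J α (w 1) := by
  unfold rho J w
  norm_num

theorem even_integral {g : ℝ → ℝ} (hg : Continuous g) (he : ∀ x, g (-x) = g x) (ω : ℝ) :
    ∫ x in (-1 : ℝ)..1, Complex.exp (-((ω * x : ℝ) : ℂ) * Complex.I) * (g x : ℂ)
      = ((∫ x in (-1 : ℝ)..1, g x * Real.cos (ω * x) : ℝ) : ℂ) := by
  have h1 : ∀ x : ℝ, Complex.exp (-((ω * x : ℝ) : ℂ) * Complex.I) * (g x : ℂ)
      = ((g x * Real.cos (ω * x) : ℝ) : ℂ) - ((g x * Real.sin (ω * x) : ℝ) : ℂ) * Complex.I := by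
    intro x
    rw [Complex.exp_mul_I, Complex.cos_neg, Complex.sin_neg]
    push_cast
    ring
  simp_rw [h1]
  have h2 : ∫ x in (-1 : ℝ)..1, g x * Real.sin (ω * x) = 0 := by
    have := intervalIntegral.integral_comp_neg (a := -1) (b := 1)
      (fun x : ℝ => g x * Real.sin (ω * x))
    simp only [he, mul_neg, Real.sin_neg, neg_neg, intervalIntegral.integral_neg] at this
    linarith
  rw [intervalIntegral.integral_sub, intervalIntegral.integral_mul_const,
    intervalIntegral.integral_ofReal, intervalIntegral.integral_ofReal, h2]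
  · simp
  · apply Continuous.intervalIntegrable
    fun_prop
  · apply Continuous.intervalIntegrable
    fun_prop

/-- The function on `[1,3]` shifted to `[-1,1]`. -/
noncomputable def G (α ε : ℝ) (y : ℝ) : ℝ :=
  -(1 - |y| ^ α) + ε * (1 + Real.cos (3 * Real.pi * y))

/-- One period of the extension. -/
noncomputable def F0 (α ε : ℝ) (x : ℝ) : ℝ := if x ≤ 1 then 1 - |x| ^ α else G α ε (x - 2)

theorem G_neg_one {α ε : ℝ} : G α ε (-1) = 0 := by
  unfold G
  have : Real.cos (3 * Real.pi * -1) = -1 := by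
    rw [mul_neg_one, Real.cos_neg]
    have : 3 * Real.pi = Real.pi + 2 * Real.pi := by ring
    rw [this, Real.cos_add_two_pi, Real.cos_pi]
  rw [this]; simp

theorem G_one {α ε : ℝ} : G α ε 1 = 0 := by
  unfold G
  have : Real.cos (3 * Real.pi * 1) = -1 := by
    rw [mul_one]
    have : 3 * Real.pi = Real.pi + 2 * Real.pi := by ring
    rw [this, Real.cos_add_two_pi, Real.cos_pi]
  rw [this]; simp

theorem abs_rpow_cont {α : ℝ} (hα : 0 < α) : Continuous fun x : ℝ => |x| ^ α :=
  continuous_abs.rpow_const fun _ => Or.inr hα.le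

theorem G_cont {α ε : ℝ} (hα : 0 < α) : Continuous (G α ε) := by
  have := abs_rpow_cont hα
  unfold G
  fun_prop

theorem F0_cont {α ε : ℝ} (hα : 0 < α) : Continuous (F0 α ε) := by
  have h1 := abs_rpow_cont hα
  have h2 := G_cont (ε := ε) hα
  unfold F0
  apply Continuous.if_le (by fun_prop) (by fun_prop) continuous_id continuous_const
  intro x hx
  simp only [id] at hx
  subst hx
  have : (1 : ℝ) - 2 = -1 := by norm_num
  rw [this, G_neg_one]
  simp

theorem F0_three {α ε : ℝ} : F0 α ε 3 = 0 := by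
  unfold F0
  rw [if_neg (by norm_num)]
  have : (3 : ℝ) - 2 = 1 := by norm_num
  rw [this, G_one]

theorem F0_neg_one {α ε : ℝ} : F0 α ε (-1) = 0 := by
  unfold F0
  rw [if_pos (by norm_num)]
  simp

theorem F0_left {α ε x : ℝ} (hx : x ≤ 1) : F0 α ε x = 1 - |x| ^ α := by
  unfold F0
  rw [if_pos hx]

theorem F0_right {α ε x : ℝ} (hx : 1 ≤ x) : F0 α ε x = G α ε (x - 2) := by
  rcases hx.eq_or_lt with h | h
  · subst h
    rw [F0_left le_rfl]
    have : (1 : ℝ) - 2 = -1 := by norm_num
    rw [this, G_neg_one]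
    simp
  · unfold F0
    rw [if_neg (not_le.2 h)]

/-- The Fourier coefficients. -/
noncomputable def c (α ε : ℝ) (n : ℤ) : ℝ :=
  ((1 - (-1) ^ n) * A α (n * Real.pi / 2) + (-1) ^ n * (ε * B (n * Real.pi / 2))) / 4

instance fact4 : Fact (0 < (4 : ℝ)) := ⟨by norm_num⟩

theorem coeff_eq {α : ℝ} (ε : ℝ) (hα : 0 < α) (n : ℤ) :
    fourierCoeff (AddCircle.liftIco 4 (-1) (fun x => ((F0 α ε x : ℝ) : ℂ))) n = (c α ε n : ℝ) := by
  rw [fourierCoeff_liftIco_eq, fourierCoeffOn_eq_integral]
  set ω : ℝ := n * Real.pi / 2 with hω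
  have h : ∀ x : ℝ, fourier (-n) (x : AddCircle (-1 + 4 - -1 : ℝ)) • ((F0 α ε x : ℝ) : ℂ)
      = Complex.exp (-((ω * x : ℝ) : ℂ) * Complex.I) * (F0 α ε x : ℂ) := by
    intro x
    rw [fourier_coe_apply, smul_eq_mul]
    congr 2
    rw [hω]
    push_cast
    ring
  simp_rw [h]
  have hc : Continuous fun x : ℝ => Complex.exp (-((ω * x : ℝ) : ℂ) * Complex.I) * (F0 α ε x : ℂ) := by
    have := F0_cont (ε := ε) hα
    fun_prop
  have hb : (-1 : ℝ) + 4 = 3 := by norm_num
  rw [hb, ← intervalIntegral.integral_add_adjacent_intervals (b := 1)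
    (hc.intervalIntegrable _ _) (hc.intervalIntegrable _ _)]
  have hI1 : ∫ x in (-1 : ℝ)..1, Complex.exp (-((ω * x : ℝ) : ℂ) * Complex.I) * (F0 α ε x : ℂ)
      = ((A α ω : ℝ) : ℂ) := by
    have h1 : ∫ x in (-1 : ℝ)..1, Complex.exp (-((ω * x : ℝ) : ℂ) * Complex.I) * (F0 α ε x : ℂ)
      = ∫ x in (-1 : ℝ)..1, Complex.exp (-((ω * x : ℝ) : ℂ) * Complex.I) *
          ((1 - |x| ^ α : ℝ) : ℂ) := by
      apply intervalIntegral.integral_congr
      intro x hx
      rw [uIcc_of_le (by norm_num)] at hx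
      simp only [F0_left hx.2]
    rw [h1, even_integral (g := fun x => 1 - |x| ^ α)
      (continuous_const.sub (abs_rpow_cont hα)) (fun x => by simp)]
    rfl
  have hI2 : ∫ x in (1 : ℝ)..3, Complex.exp (-((ω * x : ℝ) : ℂ) * Complex.I) * (F0 α ε x : ℂ)
      = (((-1) ^ n * (-A α ω + ε * B ω) : ℝ) : ℂ) := by
    have h1 : ∫ x in (1 : ℝ)..3, Complex.exp (-((ω * x : ℝ) : ℂ) * Complex.I) * (F0 α ε x : ℂ)
      = ∫ x in (1 : ℝ)..3, (fun y : ℝ => (-1) ^ n *
          (Complex.exp (-((ω * y : ℝ) : ℂ) * Complex.I) * (G α ε y : ℂ))) (x - 2) := by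
      apply intervalIntegral.integral_congr
      intro x hx
      rw [uIcc_of_le (by norm_num)] at hx
      simp only [F0_right hx.1]
      rw [← mul_assoc]
      congr 1
      have h2 : (-1 : ℂ) ^ n = Complex.exp (-(n * Real.pi : ℝ) * Complex.I) := by
        rw [← Complex.exp_pi_mul_I, ← Complex.exp_int_mul]
        rw [Complex.exp_eq_exp_iff_exists_int]
        refine ⟨n, ?_⟩
        push_cast
        ring
      rw [h2, ← Complex.exp_add]
      congr 1
      rw [hω]
      push_cast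
      ring
    rw [h1, intervalIntegral.integral_comp_sub_right (fun y : ℝ => (-1) ^ n *
          (Complex.exp (-((ω * y : ℝ) : ℂ) * Complex.I) * (G α ε y : ℂ))) 2]
    have e1 : (1 : ℝ) - 2 = -1 := by norm_num
    have e2 : (3 : ℝ) - 2 = 1 := by norm_num
    rw [e1, e2, intervalIntegral.integral_const_mul, even_integral (G_cont hα)
      (fun x => by unfold G; rw [abs_neg, mul_neg, Real.cos_neg])]
    have h3 : ∫ x in (-1 : ℝ)..1, G α ε x * Real.cos (ω * x) = -A α ω + ε * B ω := by
      unfold A B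
      rw [← intervalIntegral.integral_neg, ← intervalIntegral.integral_const_mul,
        ← intervalIntegral.integral_add]
      · apply intervalIntegral.integral_congr
        intro x _
        simp only [G]
        ring
      · apply Continuous.intervalIntegrable
        have := abs_rpow_cont hα
        fun_prop
      · apply Continuous.intervalIntegrable
        fun_prop
    rw [h3]
    push_cast
    ring
  rw [hI1, hI2]
  unfold c
  rw [Complex.real_smul]
  push_cast
  ring

theorem A_neg (α ω : ℝ) : A α (-ω) = A α ω := by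
  unfold A
  simp [neg_mul, Real.cos_neg]

theorem B_neg (ω : ℝ) : B (-ω) = B ω := by
  unfold B
  simp [neg_mul, Real.cos_neg]

theorem c_neg (α ε : ℝ) (n : ℤ) : c α ε (-n) = c α ε n := by
  unfold c
  have h1 : ((-n : ℤ) : ℝ) * Real.pi / 2 = -(n * Real.pi / 2) := by push_cast; ring
  have h2 : (-1 : ℝ) ^ (-n) = (-1) ^ n := by
    rw [zpow_neg, ← inv_zpow]
    norm_num
  rw [h1, h2, A_neg, B_neg]

theorem c_even (α ε : ℝ) (m : ℤ) : c α ε (2 * m) = ε * B (m * Real.pi) / 4 := by
  unfold c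
  have h1 : ((2 * m : ℤ) : ℝ) * Real.pi / 2 = m * Real.pi := by push_cast; ring
  have h2 : (-1 : ℝ) ^ (2 * m) = 1 := by
    rw [zpow_mul]; simp
  rw [h1, h2]
  ring

theorem c_odd (α ε : ℝ) (k : ℕ) : c α ε (2 * k + 1 : ℤ) = (2 * A α (w k) - ε * B (w k)) / 4 := by
  unfold c
  have h1 : ((2 * k + 1 : ℤ) : ℝ) * Real.pi / 2 = w k := by unfold w; push_cast; ring
  have h2 : (-1 : ℝ) ^ (2 * k + 1 : ℤ) = -1 := by
    rw [zpow_add₀ (by norm_num), zpow_mul]; simp
  rw [h1, h2]
  ring

/-- The choice of the exponent and of the size of the correction. -/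
theorem choice {α₀ : ℝ} (h1 : 1 < α₀) (h2 : α₀ < 2) (h0 : J α₀ (w 1) = 0) :
    ∃ α ε : ℝ, α₀ < α ∧ α < 2 ∧ 0 < ε ∧ ∀ k : ℕ, ε * B (w k) ≤ 2 * A α (w k) := by
  have hpi := Real.pi_pos
  have hpi3 := Real.pi_gt_three
  have hJ0 : 0 < J α₀ (w 0) := J_zero_pos h1
  have hJ3 : 0 < J α₀ (w 3) := by
    have := pair_nonneg h1 h2 0
    simp only [mul_zero, zero_add] at this
    linarith
  obtain ⟨δ, hδ, hδ0, hδ3⟩ : ∃ δ : ℝ, 0 < δ ∧ δ < J α₀ (w 0) ∧ δ < J α₀ (w 3) :=
    ⟨min (J α₀ (w 0)) (J α₀ (w 3)) / 2, by positivity,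
      by have := min_le_left (J α₀ (w 0)) (J α₀ (w 3)); have : 0 < min (J α₀ (w 0)) (J α₀ (w 3)) := by positivity
         linarith,
      by have := min_le_right (J α₀ (w 0)) (J α₀ (w 3)); have : 0 < min (J α₀ (w 0)) (J α₀ (w 3)) := by positivity
         linarith⟩
  set ε : ℝ := 4 * (α₀ * (α₀ - 1)) * δ / (72 * Real.pi ^ 2) with hε
  have hα₀ : 0 < α₀ - 1 := by linarith
  have hεpos : 0 < ε := by positivity
  have e0 := (J_tendsto h1 h2 (w_pos 0).le).eventually (lt_mem_nhds hδ0)
  have e3 := (J_tendsto h1 h2 (w_pos 3).le).eventually (lt_mem_nhds hδ3)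
  have e1 : ∀ᶠ α in 𝓝[>] α₀, -(ε * (4 / (9 * Real.pi))) < J α (w 1) := by
    have := J_tendsto h1 h2 (w_pos 1).le
    rw [h0] at this
    exact this.eventually (lt_mem_nhds (by
      have : 0 < ε * (4 / (9 * Real.pi)) := by positivity
      linarith))
  have e2 : ∀ᶠ α in 𝓝[>] α₀, α < 2 := by
    filter_upwards [nhdsWithin_le_nhds (Iio_mem_nhds h2)] with α h using h
  obtain ⟨α, ⟨⟨⟨a0, a3⟩, a1⟩, a2⟩, ha⟩ := (((e0.and e3).and e1).and e2 |>.and
    self_mem_nhdsWithin).exists
  have ha' : α₀ < α := ha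
  have hα1 : 1 < α := by linarith
  refine ⟨α, ε, ha', a2, hεpos, fun k => ?_⟩
  have hw := w_pos k
  rw [A_w hα1]
  by_cases hk : k = 1
  · subst hk
    rw [B_w_one]
    have hw1 : 4 < w 1 := by unfold w; push_cast; linarith
    have hp1 : (w 1) ^ (1 - α) ≤ 1 :=
      Real.rpow_le_one_of_one_le_of_nonpos (by linarith) (by linarith)
    have hp0 : 0 < (w 1) ^ (1 - α) := Real.rpow_pos_of_pos hw _
    set P := 2 * α * (α - 1) / w 1 ^ 2 * w 1 ^ (1 - α) with hP
    have hP0 : 0 ≤ P := by
      have : 0 < α - 1 := by linarith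
      have : 0 < α := by linarith
      positivity
    have hP1 : P ≤ 1 := by
      have h3 : 2 * α * (α - 1) / w 1 ^ 2 ≤ 1 := by
        rw [div_le_one (by positivity)]
        nlinarith
      calc P ≤ 1 * 1 := by
            rw [hP]
            apply mul_le_mul h3 hp1 hp0.le zero_le_one
        _ = 1 := one_mul 1
    have h4 : 2 * α * (α - 1) / w 1 ^ 2 * (w 1 ^ (1 - α) * J α (w 1)) = P * J α (w 1) := by
      rw [hP]; ring
    rw [h4]
    have h5 : 0 < ε * (4 / (9 * Real.pi)) := by positivity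
    have h6 : -(ε * (4 / (9 * Real.pi))) ≤ P * J α (w 1) := by
      rcases le_total 0 (J α (w 1)) with h | h
      · have := mul_nonneg hP0 h
        linarith
      · nlinarith
    have h7 : ε * -(16 / (9 * Real.pi)) = -(4 * (ε * (4 / (9 * Real.pi)))) := by ring
    rw [h7]
    linarith
  · have hJk : δ ≤ J α (w k) := by
      rcases Nat.eq_zero_or_pos k with h | h
      · subst h; exact a0.le
      · exact a3.le.trans (J_ge hα1 a2 (by omega))
    have hB := (abs_le.1 (abs_B_w_le k)).2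
    have hp : (w k)⁻¹ ≤ (w k) ^ (1 - α) := by
      rw [← Real.rpow_neg_one]
      apply Real.rpow_le_rpow_of_exponent_le _ (by linarith)
      unfold w
      have : (0 : ℝ) ≤ k := Nat.cast_nonneg k
      nlinarith
    have h8 : ε * B (w k) ≤ 4 * (α₀ * (α₀ - 1)) * δ / w k ^ 3 := by
      calc ε * B (w k) ≤ ε * (72 * Real.pi ^ 2 / w k ^ 3) := by gcongr
        _ = _ := by rw [hε]; field_simp
    have h9 : 4 * (α₀ * (α₀ - 1)) * δ / w k ^ 3 = 2 * (2 * α₀ * (α₀ - 1) / w k ^ 2 * ((w k)⁻¹ * δ)) := by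
      field_simp
      ring
    rw [h9] at h8
    refine h8.trans ?_
    have : 0 < α - 1 := by linarith
    have : 0 < α := by linarith
    have h10 : 2 * α₀ * (α₀ - 1) / w k ^ 2 ≤ 2 * α * (α - 1) / w k ^ 2 := by
      gcongr
    have h11 : (w k)⁻¹ * δ ≤ w k ^ (1 - α) * J α (w k) := by
      apply mul_le_mul hp hJk hδ.le (Real.rpow_pos_of_pos hw _).le
    have h12 := mul_le_mul h10 h11 (by positivity) (by positivity)
    linarith

theorem c_nonneg {α ε : ℝ} (hε : 0 < ε) (h : ∀ k : ℕ, ε * B (w k) ≤ 2 * A α (w k)) (n : ℤ) :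
    0 ≤ c α ε n := by
  have hodd : ∀ k : ℕ, 0 ≤ c α ε (2 * k + 1 : ℤ) := by
    intro k
    rw [c_odd]
    have := h k
    linarith
  rcases Int.even_or_odd' n with ⟨m, rfl | rfl⟩
  · rw [c_even]
    have := B_int_nonneg m
    positivity
  · rcases le_or_gt 0 m with hm | hm
    · obtain ⟨k, rfl⟩ := Int.eq_ofNat_of_zero_le hm
      exact hodd k
    · obtain ⟨k, hk⟩ := Int.eq_ofNat_of_zero_le (show 0 ≤ -m - 1 by omega)
      have : 2 * m + 1 = -(2 * (k : ℤ) + 1) := by omega
      rw [this, c_neg]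
      exact hodd k

theorem B_int_zero {m : ℤ} (h0 : m ≠ 0) (h3 : m ≠ 3) (h3' : m ≠ -3) : B (m * Real.pi) = 0 := by
  have hS : ∀ j : ℤ, j ≠ 0 → S (j * Real.pi) = 0 := by
    intro j hj
    have : (j : ℝ) * Real.pi ≠ 0 := mul_ne_zero (by exact_mod_cast hj) Real.pi_ne_zero
    rw [S_eq this, Real.sin_int_mul_pi]
    simp
  have e2 : (m : ℝ) * Real.pi + 3 * Real.pi = ((m + 3 : ℤ) : ℝ) * Real.pi := by push_cast; ring
  have e3 : (m : ℝ) * Real.pi - 3 * Real.pi = ((m - 3 : ℤ) : ℝ) * Real.pi := by push_cast; ring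
  rw [B_eq, e2, e3, hS m h0, hS _ (by omega), hS _ (by omega)]
  simp

theorem c_summable {α ε : ℝ} (hα : 1 < α) (hε : 0 < ε) : Summable (c α ε) := by
  have hN : Summable fun n : ℕ => c α ε n := by
    have hev : Summable fun k : ℕ => c α ε ((2 * k : ℕ) : ℤ) := by
      apply summable_of_ne_finset_zero (s := {0, 3})
      intro k hk
      simp only [Finset.mem_insert, Finset.mem_singleton, not_or] at hk
      push_cast
      rw [c_even, B_int_zero (by omega) (by omega) (by omega)]
      simp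
    have hod : Summable fun k : ℕ => c α ε ((2 * k + 1 : ℕ) : ℤ) := by
      have hs : Summable fun k : ℕ => (α + 18 * Real.pi ^ 2 * ε) * (1 / ((k + 1 : ℕ) : ℝ) ^ 2) := by
        apply Summable.mul_left
        exact (summable_nat_add_iff 1).2 (Real.summable_one_div_nat_pow.2 (by norm_num))
      refine Summable.of_norm_bounded hs fun k => ?_
      push_cast
      rw [c_odd, Real.norm_eq_abs]
      have h1 := abs_A_w_le hα k
      have h2 := abs_B_w_le k
      have hw := w_pos k
      have hwk : (k : ℝ) + 1 ≤ w k := by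
        unfold w
        have h3 := Real.pi_gt_three
        have : (0 : ℝ) ≤ k := Nat.cast_nonneg k
        nlinarith
      have hk1 : (0 : ℝ) < k + 1 := by positivity
      have h3 : |(2 * A α (w k) - ε * B (w k)) / 4| ≤ (2 * |A α (w k)| + ε * |B (w k)|) / 4 := by
        rw [abs_div, abs_of_pos (by norm_num : (0 : ℝ) < 4)]
        gcongr
        calc |2 * A α (w k) - ε * B (w k)| ≤ |2 * A α (w k)| + |ε * B (w k)| := abs_sub _ _
          _ = _ := by rw [abs_mul, abs_mul, abs_of_pos hε, abs_of_pos (by norm_num : (0 : ℝ) < 2)]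
      refine h3.trans ?_
      have h4 : |A α (w k)| ≤ 2 * α / (k + 1) ^ 2 := h1.trans (by gcongr)
      have h5 : |B (w k)| ≤ 72 * Real.pi ^ 2 / (k + 1) ^ 2 := by
        refine h2.trans ?_
        have : ((k : ℝ) + 1) ^ 2 ≤ w k ^ 3 := by
          calc ((k : ℝ) + 1) ^ 2 ≤ w k ^ 2 := by gcongr
            _ = w k ^ 2 * 1 := by ring
            _ ≤ w k ^ 2 * w k := by
              apply mul_le_mul_of_nonneg_left _ (by positivity)
              have : (0 : ℝ) ≤ k := Nat.cast_nonneg k
              linarith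
            _ = w k ^ 3 := by ring
        gcongr
      calc (2 * |A α (w k)| + ε * |B (w k)|) / 4
          ≤ (2 * (2 * α / (k + 1) ^ 2) + ε * (72 * Real.pi ^ 2 / (k + 1) ^ 2)) / 4 := by gcongr
        _ = (α + 18 * Real.pi ^ 2 * ε) * (1 / ((k : ℝ) + 1) ^ 2) := by ring
    obtain ⟨a, ha⟩ := hev
    obtain ⟨b, hb⟩ := hod
    exact ⟨a + b, HasSum.even_add_odd ha hb⟩
  refine Summable.of_nat_of_neg hN ?_
  simpa only [c_neg] using hN

/-- The extension of `1 - |ξ|^α` to a positive definite function. -/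
theorem posDef {α ε : ℝ} (hα : 1 < α) (hε : 0 < ε)
    (h : ∀ k : ℕ, ε * B (w k) ≤ 2 * A α (w k)) : IsPosDefOnUnit fun ξ => 1 - |ξ| ^ α := by
  have hα0 : 0 < α := by linarith
  have hc0 := c_nonneg hε h
  have hcs := c_summable hα hε
  set μ : Measure ℝ := Measure.sum fun n : ℤ =>
    ENNReal.ofReal (c α ε n) • Measure.dirac (n * Real.pi / 2) with hμ
  have hfin : IsFiniteMeasure μ := by
    constructor
    rw [hμ, Measure.sum_apply _ MeasurableSet.univ]
    simp only [Measure.smul_apply, measure_univ, smul_eq_mul, mul_one]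
    rw [← ENNReal.ofReal_tsum_of_nonneg hc0 hcs]
    exact ENNReal.ofReal_lt_top
  refine ⟨μ, hfin, fun ξ hξ => ?_⟩
  have hcont : Continuous (AddCircle.liftIco 4 (-1) (fun x => ((F0 α ε x : ℝ) : ℂ))) := by
    apply AddCircle.liftIco_continuous
    · have : (-1 : ℝ) + 4 = 3 := by norm_num
      rw [this, F0_three, F0_neg_one]
    · exact (Complex.continuous_ofReal.comp (F0_cont hα0)).continuousOn
  let f : C(AddCircle (4 : ℝ), ℂ) := ⟨_, hcont⟩
  have hcoef : ∀ n : ℤ, fourierCoeff f n = (c α ε n : ℝ) := fun n => coeff_eq ε hα0 n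
  have hsum : Summable (fourierCoeff f) := by
    have : fourierCoeff f = fun n => ((c α ε n : ℝ) : ℂ) := funext hcoef
    rw [this]
    exact Complex.summable_ofReal.2 hcs
  have hpt := has_pointwise_sum_fourier_series_of_summable hsum (ξ : AddCircle (4 : ℝ))
  have hval : f (ξ : AddCircle (4 : ℝ)) = ((1 - |ξ| ^ α : ℝ) : ℂ) := by
    have h1 : AddCircle.liftIco 4 (-1) (fun x => ((F0 α ε x : ℝ) : ℂ)) (ξ : AddCircle (4 : ℝ))
        = ((F0 α ε ξ : ℝ) : ℂ) :=
      AddCircle.liftIco_coe_apply ⟨hξ.1, by linarith [hξ.2]⟩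
    rw [F0_left hξ.2] at h1
    exact h1
  rw [hval] at hpt
  have hint : Integrable (fun x : ℝ => Complex.exp (Complex.I * ξ * x)) μ := by
    apply Integrable.of_bound (C := 1)
    · apply Continuous.aestronglyMeasurable
      fun_prop
    · refine Eventually.of_forall fun x => ?_
      have : Complex.I * ξ * x = ((ξ * x : ℝ) : ℂ) * Complex.I := by push_cast; ring
      rw [this, Complex.norm_exp_ofReal_mul_I]
  have hsum2 := hasSum_integral_measure hint
  have hterm : ∀ n : ℤ, ∫ x : ℝ, Complex.exp (Complex.I * ξ * x)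
      ∂(ENNReal.ofReal (c α ε n) • Measure.dirac (n * Real.pi / 2))
      = fourierCoeff f n • fourier n (ξ : AddCircle (4 : ℝ)) := by
    intro n
    rw [MeasureTheory.integral_smul_measure, integral_dirac, hcoef, fourier_coe_apply,
      ENNReal.toReal_ofReal (hc0 n), smul_eq_mul, Complex.real_smul]
    congr 2
    push_cast
    ring
  simp_rw [hterm] at hsum2
  exact hpt.unique hsum2

/-- The admissible exponents are at most `2`. -/
theorem admissible_le_two {α : ℝ} (hα : α ∈ admissible) : α ≤ 2 := by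
  obtain ⟨hα0, μ, hμ, hμe⟩ := hα
  have hintc : ∀ ξ : ℝ, Integrable (fun x : ℝ => Real.cos (ξ * x)) μ := by
    intro ξ
    apply Integrable.of_bound (C := 1)
    · apply Continuous.aestronglyMeasurable
      fun_prop
    · refine Eventually.of_forall fun x => ?_
      rw [Real.norm_eq_abs]
      exact Real.abs_cos_le_one _
  have hinte : ∀ ξ : ℝ, Integrable (fun x : ℝ => Complex.exp (Complex.I * ξ * x)) μ := by
    intro ξ
    apply Integrable.of_bound (C := 1)
    · apply Continuous.aestronglyMeasurable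
      fun_prop
    · refine Eventually.of_forall fun x => ?_
      have : Complex.I * ξ * x = ((ξ * x : ℝ) : ℂ) * Complex.I := by push_cast; ring
      rw [this, Complex.norm_exp_ofReal_mul_I]
  have hre : ∀ ξ ∈ Icc (-1 : ℝ) 1, 1 - |ξ| ^ α = ∫ x : ℝ, Real.cos (ξ * x) ∂μ := by
    intro ξ hξ
    have h1 := congrArg Complex.re (hμe ξ hξ)
    rw [Complex.ofReal_re] at h1
    simp only at h1
    rw [h1]
    have h2 : (∫ x : ℝ, Complex.exp (Complex.I * ξ * x) ∂μ).re
        = ∫ x : ℝ, (Complex.exp (Complex.I * ξ * x)).re ∂μ := by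
      have := integral_re (hinte ξ)
      simpa using this.symm
    rw [h2]
    congr 1
    ext x
    have : Complex.I * ξ * x = ((ξ * x : ℝ) : ℂ) * Complex.I := by push_cast; ring
    rw [this, Complex.exp_ofReal_mul_I_re]
  have h0 := hre 0 (by norm_num)
  have h1 := hre 1 (by norm_num)
  have h2 := hre (1 / 2) (by norm_num)
  rw [abs_zero, Real.zero_rpow hα0.ne'] at h0
  rw [abs_one, Real.one_rpow] at h1
  have hle : ∫ x : ℝ, (4 * Real.cos (1 / 2 * x) - Real.cos (1 * x)) ∂μ
      ≤ ∫ x : ℝ, 3 * Real.cos (0 * x) ∂μ := by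
    apply MeasureTheory.integral_mono
    · exact ((hintc (1 / 2)).const_mul 4).sub (hintc 1)
    · exact (hintc 0).const_mul 3
    · intro x
      simp only
      have h3 : Real.cos (1 * x) = 2 * Real.cos (1 / 2 * x) ^ 2 - 1 := by
        rw [← Real.cos_two_mul]; congr 1; ring
      rw [h3, zero_mul, Real.cos_zero]
      nlinarith [sq_nonneg (Real.cos (1 / 2 * x) - 1)]
  rw [MeasureTheory.integral_sub ((hintc (1 / 2)).const_mul 4) (hintc 1),
    MeasureTheory.integral_const_mul, MeasureTheory.integral_const_mul, ← h0, ← h1, ← h2] at hle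
  by_contra hcon
  push Not at hcon
  have h5 : |(1 / 2 : ℝ)| ^ α < 1 / 4 := by
    rw [abs_of_pos (by norm_num)]
    calc (1 / 2 : ℝ) ^ α < (1 / 2 : ℝ) ^ (2 : ℝ) :=
          Real.rpow_lt_rpow_of_exponent_gt (by norm_num) (by norm_num) hcon
      _ = 1 / 4 := by norm_num
  linarith

theorem rho_two : J 2 (w 1) = -1 := by
  unfold J
  simp only [sub_self, Real.rpow_zero, div_one]
  rw [integral_cos, sin_w, Real.sin_zero]
  norm_num

theorem rho_pos : 0 < J (11 / 10) (w 1) := by
  have hpi := Real.pi_pos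
  have hpi3 := Real.pi_gt_three
  have hpi4 := Real.pi_lt_d2
  have h1 : (1 : ℝ) < 11 / 10 := by norm_num
  have hsplit : J (11 / 10) (w 1) = (∫ t in (0 : ℝ)..1, Real.cos t / t ^ (2 - (11 / 10 : ℝ)))
      + (∫ t in (1 : ℝ)..(w 0), Real.cos t / t ^ (2 - (11 / 10 : ℝ)))
      + ∫ t in (w 0)..(w 1), Real.cos t / t ^ (2 - (11 / 10 : ℝ)) := by
    unfold J
    rw [intervalIntegral.integral_add_adjacent_intervals (integrable_kernel h1 le_rfl (by norm_num))
      (integrable_kernel h1 (by norm_num) (w_pos 0).le),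
      intervalIntegral.integral_add_adjacent_intervals (integrable_kernel h1 le_rfl (w_pos 0).le)
      (integrable_kernel h1 (w_pos 0).le (w_pos 1).le)]
  have hw0 : w 0 = Real.pi / 2 := by unfold w; push_cast; ring
  have hw1 : w 1 = 3 * Real.pi / 2 := by unfold w; push_cast; ring
  have hA : (5 : ℝ) ≤ ∫ t in (0 : ℝ)..1, Real.cos t / t ^ (2 - (11 / 10 : ℝ)) := by
    have h3 : ∫ t in (0 : ℝ)..1, (1 / 2 : ℝ) * t ^ ((11 / 10 : ℝ) - 2) = 5 := by
      rw [intervalIntegral.integral_const_mul, integral_rpow (Or.inl (by norm_num))]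
      norm_num
    rw [← h3]
    apply intervalIntegral.integral_mono_on_of_le_Ioo zero_le_one
    · exact (intervalIntegral.intervalIntegrable_rpow' (by norm_num)).const_mul _
    · exact integrable_kernel h1 le_rfl zero_le_one
    · intro t ht
      rw [div_eq_mul_inv (Real.cos t), ← Real.rpow_neg ht.1.le, neg_sub]
      apply mul_le_mul_of_nonneg_right _ (Real.rpow_pos_of_pos ht.1 _).le
      have := Real.one_sub_sq_div_two_le_cos (x := t)
      nlinarith [ht.1, ht.2]
  have hB : 0 ≤ ∫ t in (1 : ℝ)..(w 0), Real.cos t / t ^ (2 - (11 / 10 : ℝ)) := by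
    apply intervalIntegral.integral_nonneg
    · rw [hw0]; linarith
    · intro t ht
      rw [hw0] at ht
      have ht0 : 0 < t := by linarith [ht.1]
      exact div_nonneg (Real.cos_nonneg_of_mem_Icc ⟨by linarith [ht.1], ht.2⟩)
        (Real.rpow_pos_of_pos ht0 _).le
  have hC : -Real.pi ≤ ∫ t in (w 0)..(w 1), Real.cos t / t ^ (2 - (11 / 10 : ℝ)) := by
    have h3 : ∫ t in (w 0)..(w 1), (-1 : ℝ) = -Real.pi := by
      rw [intervalIntegral.integral_const, hw0, hw1, smul_eq_mul]
      ring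
    rw [← h3]
    apply intervalIntegral.integral_mono_on
    · rw [hw0, hw1]; linarith
    · exact intervalIntegrable_const
    · exact integrable_kernel h1 (w_pos 0).le (w_pos 1).le
    · intro t ht
      rw [hw0] at ht
      have ht0 : 1 ≤ t := by linarith [ht.1]
      have h4 : 1 ≤ t ^ (2 - (11 / 10 : ℝ)) := Real.one_le_rpow ht0 (by norm_num)
      rw [le_div_iff₀ (by linarith)]
      have := Real.neg_one_le_cos t
      linarith
  rw [hsplit]
  linarith

theorem J_contOn : ContinuousOn (fun α => J α (w 1)) (Icc (11 / 10) 2) := by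
  intro α₀ hα₀
  unfold J
  apply intervalIntegral.continuousWithinAt_of_dominated_interval
    (bound := fun t => t ^ ((11 / 10 : ℝ) - 2) + 1)
  · refine Eventually.of_forall fun α => ?_
    apply Measurable.aestronglyMeasurable
    fun_prop
  · filter_upwards [self_mem_nhdsWithin] with α h2
    refine Eventually.of_forall fun t ht => ?_
    rw [uIoc_of_le (w_pos 1).le] at ht
    have ht0 := ht.1
    rw [div_eq_mul_inv, ← Real.rpow_neg ht0.le, neg_sub, norm_mul, Real.norm_eq_abs,
      Real.norm_eq_abs, abs_of_pos (Real.rpow_pos_of_pos ht0 _)]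
    have h4 : |Real.cos t| ≤ 1 := Real.abs_cos_le_one t
    have h5 : t ^ (α - 2) ≤ t ^ ((11 / 10 : ℝ) - 2) + 1 := by
      rcases le_total t 1 with h | h
      · have := Real.rpow_le_rpow_of_exponent_ge ht0 h
          (show (11 / 10 : ℝ) - 2 ≤ α - 2 by linarith [h2.1])
        linarith
      · have := Real.rpow_le_one_of_one_le_of_nonpos h (show α - 2 ≤ 0 by linarith [h2.2])
        have h6 : 0 < t ^ ((11 / 10 : ℝ) - 2) := Real.rpow_pos_of_pos ht0 _
        linarith
    have h6 : 0 < t ^ (α - 2) := Real.rpow_pos_of_pos ht0 _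
    nlinarith
  · exact (intervalIntegral.intervalIntegrable_rpow' (by norm_num)).add
      intervalIntegrable_const
  · refine Eventually.of_forall fun t ht => ?_
    rw [uIoc_of_le (w_pos 1).le] at ht
    have ht0 := ht.1
    have h1 : Continuous fun α : ℝ => Real.cos t / t ^ (2 - α) := by
      apply Continuous.div continuous_const
      · exact Real.continuous_const_rpow ht0.ne' |>.comp (by fun_prop)
      · intro α
        exact (Real.rpow_pos_of_pos ht0 _).ne'
    exact h1.continuousAt.continuousWithinAt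

theorem exists_romanov : ∃ α₀ ∈ Ioo (1 : ℝ) 2, rho α₀ = 0 := by
  have h := intermediate_value_Icc' (by norm_num : (11 / 10 : ℝ) ≤ 2) J_contOn
  have h0 : (0 : ℝ) ∈ Icc (J 2 (w 1)) (J (11 / 10) (w 1)) := by
    rw [rho_two]
    exact ⟨by norm_num, rho_pos.le⟩
  obtain ⟨α, hα, hα2⟩ := h h0
  simp only at hα2
  refine ⟨α, ⟨by linarith [hα.1], lt_of_le_of_ne hα.2 ?_⟩, by rw [rho_eq, hα2]⟩
  rintro rfl
  rw [rho_two] at hα2
  norm_num at hα2

/-- Romanov's number exists, the admissible exponents are bounded, and `β₀` is greater than every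
zero of `ρ` in `(1,2)`. -/
theorem result :
    (∃ α₀ ∈ Ioo (1 : ℝ) 2, rho α₀ = 0) ∧ BddAbove admissible ∧
      ∀ α₀ ∈ Ioo (1 : ℝ) 2, rho α₀ = 0 → α₀ < beta0 := by
  have hb : BddAbove admissible := ⟨2, fun α hα => admissible_le_two hα⟩
  refine ⟨exists_romanov, hb, fun α₀ hα₀ h => ?_⟩
  rw [rho_eq] at h
  obtain ⟨α, ε, h1, _, hε, h3⟩ := choice hα₀.1 hα₀.2 h
  have h4 : α ∈ admissible :=
    ⟨by linarith [hα₀.1], posDef (by linarith [hα₀.1]) hε h3⟩
  exact h1.trans_le (le_csSup hb h4)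

end Pool.Agent.Results.MP_e4dd62_an.BeyondRomanov
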